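import Pool.Agent.Helper53.AE.GoalsC
import Pool.Agent.Helper39.CF.MUL

/-!
Packet 12957 (AE-ENV, MP_8130e1_an): the multiplier algebra as environment, by helper39.
-/

set_option autoImplicit false

open scoped ComplexOrder Topology
open Filter TopologicalSpace

namespace Pool.Agent.Helper39.AE.ENV

open Pool.Agent.Helper53.AE

theorem t (hAUS : S_AUS) : S_ENV := by
  intro K _ _ hLAF
  obtain ⟨M, iM, k, hkinj, hid, hess, hstr⟩ := Pool.Agent.Helper39.CF.MUL.t K
  obtain ⟨v, hv1, hv2⟩ := hAUS K
  have hiso : Isometry k := NonUnitalStarAlgHom.isometry k hkinj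
  have hnorm : ∀ x, ‖k x‖ = ‖x‖ := fun x => NonUnitalStarAlgHom.norm_map k hkinj x
  let D : NonUnitalStarSubalgebra ℂ M := NonUnitalStarAlgHom.range k
  have hD : ∀ d, d ∈ D ↔ d ∈ Set.range k := fun d => Iff.rfl
  have hDc : IsClosed (D : Set M) := hiso.isClosedEmbedding.isClosed_range
  refine ⟨M, iM, D, k, ⟨⟨hDc, ?_⟩, ?_, ?_, ?_, ?_⟩, hkinj, hD⟩
  · rintro m d ⟨x, rfl⟩
    exact hid m x
  · intro m hm
    exact hess m fun x => hm _ ⟨x, rfl⟩
  · intro b C hb h1 h2
    have hC : 0 ≤ C := (norm_nonneg _).trans (hb 0)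
    choose b' hb' using fun n => (hid (b n) (v n)).1
    have hb'C : ∀ n, ‖b' n‖ ≤ C := by
      intro n
      rw [← hnorm, hb']
      calc ‖b n * k (v n)‖ ≤ ‖b n‖ * ‖k (v n)‖ := norm_mul_le _ _
        _ ≤ C * 1 := mul_le_mul (hb n) (by rw [hnorm]; exact (hv1 n).2) (norm_nonneg _) hC
        _ = C := mul_one C
    have hL : ∀ (x : K) (w : M), Tendsto (fun n => b n * k x) atTop (𝓝 w) →
        Tendsto (fun n => k (b' n * x)) atTop (𝓝 w) := by
      intro x w hw
      have e1 : ∀ n, k (b' n * x) = b n * k x - b n * k (x - v n * x) := by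
        intro n
        rw [map_mul, hb', map_sub, map_mul, mul_sub, ← mul_assoc]
        abel
      have e2 : Tendsto (fun n => b n * k (x - v n * x)) atTop (𝓝 0) := by
        have e3 : Tendsto (fun n => C * ‖x - v n * x‖) atTop (𝓝 0) := by
          have e4 := ((tendsto_const_nhds (x := x)).sub (hv2 x).1).norm
          rw [sub_self, norm_zero] at e4
          have e5 := e4.const_mul C
          rwa [mul_zero] at e5
        refine squeeze_zero_norm (fun n => ?_) e3
        calc ‖b n * k (x - v n * x)‖ ≤ ‖b n‖ * ‖k (x - v n * x)‖ := norm_mul_le _ _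
          _ ≤ C * ‖x - v n * x‖ := by
              rw [hnorm]
              exact mul_le_mul_of_nonneg_right (hb n) (norm_nonneg _)
      have e6 := hw.sub e2
      rw [sub_zero] at e6
      exact e6.congr fun n => (e1 n).symm
    have hR : ∀ (x : K) (w : M), Tendsto (fun n => k x * b n) atTop (𝓝 w) →
        Tendsto (fun n => k (x * b' n)) atTop (𝓝 w) := by
      intro x w hw
      have hwD : w ∈ (D : Set M) := hDc.mem_of_tendsto hw
        (Eventually.of_forall fun n => (hid (b n) x).2)
      obtain ⟨y, hy⟩ := hwD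
      change k y = w at hy
      subst hy
      have e1 : ∀ n, k (x * b' n) = (k x * b n - k y) * k (v n) + k (y * v n) := by
        intro n
        rw [map_mul, hb', map_mul, sub_mul, ← mul_assoc]
        abel
      have e2 : Tendsto (fun n => (k x * b n - k y) * k (v n)) atTop (𝓝 0) := by
        have e3 : Tendsto (fun n => ‖k x * b n - k y‖) atTop (𝓝 0) := by
          have e4 := (hw.sub (tendsto_const_nhds (x := k y))).norm
          rwa [sub_self, norm_zero] at e4
        refine squeeze_zero_norm (fun n => ?_) e3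
        calc ‖(k x * b n - k y) * k (v n)‖ ≤ ‖k x * b n - k y‖ * ‖k (v n)‖ := norm_mul_le _ _
          _ ≤ ‖k x * b n - k y‖ * 1 :=
              mul_le_mul_of_nonneg_left (by rw [hnorm]; exact (hv1 n).2) (norm_nonneg _)
          _ = _ := mul_one _
      have e5 : Tendsto (fun n => k (y * v n)) atTop (𝓝 (k y)) :=
        (hiso.continuous.tendsto y).comp (hv2 y).2
      have e6 := e2.add e5
      rw [zero_add] at e6
      exact e6.congr fun n => (e1 n).symm
    have hCau : ∀ (u : ℕ → K) (w : M), Tendsto (fun n => k (u n)) atTop (𝓝 w) → CauchySeq u := by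
      intro u w hw
      have h3 := hw.cauchySeq
      rw [Metric.cauchySeq_iff] at h3 ⊢
      intro ε hε
      obtain ⟨N, hN⟩ := h3 ε hε
      exact ⟨N, fun m hm n hn => by
        have := hN m hm n hn
        rwa [hiso.dist_eq] at this⟩
    have hl : ∀ x, ∃ w, Tendsto (fun n => b n * k x) atTop (𝓝 w) := fun x =>
      cauchySeq_tendsto_of_complete (h1 _ ⟨x, rfl⟩)
    have hr : ∀ x, ∃ w, Tendsto (fun n => k x * b n) atTop (𝓝 w) := fun x =>
      cauchySeq_tendsto_of_complete (h2 _ ⟨x, rfl⟩)
    obtain ⟨m, hm⟩ := hstr b' C hb'C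
      (fun x => by
        obtain ⟨w, hw⟩ := hl x
        exact hCau _ w (hL x w hw))
      (fun x => by
        obtain ⟨w, hw⟩ := hr x
        exact hCau _ w (hR x w hw))
    refine ⟨m, ?_⟩
    rintro d ⟨x, rfl⟩
    constructor
    · obtain ⟨w, hw⟩ := hl x
      have := tendsto_nhds_unique (hL x w hw) (hm x).1
      change Tendsto (fun n => b n * k x) atTop (𝓝 (m * k x))
      rw [← this]
      exact hw
    · obtain ⟨w, hw⟩ := hr x
      have := tendsto_nhds_unique (hR x w hw) (hm x).2
      change Tendsto (fun n => k x * b n) atTop (𝓝 (k x * m))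
      rw [← this]
      exact hw
  · intro S ε hS hε
    classical
    obtain ⟨F, hF1, -, hF3⟩ := hLAF (S.preimage k hkinj.injOn) ε (fun _ _ => trivial) hε
    refine ⟨F.map k, ?_, ?_, ?_⟩
    · let f : F →ₗ[ℂ] (F.map k) :=
        { toFun := fun x => ⟨k x.1, ⟨x.1, x.2, rfl⟩⟩
          map_add' := fun a b => Subtype.ext (map_add k a.1 b.1)
          map_smul' := fun c a => Subtype.ext (map_smul k c a.1) }
      refine Module.Finite.of_surjective f ?_
      rintro ⟨y, x, hx, rfl⟩
      exact ⟨⟨x, hx⟩, rfl⟩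
    · rintro y ⟨x, hx, rfl⟩
      exact ⟨x, rfl⟩
    · intro x hx
      obtain ⟨x', hx'⟩ := hS x hx
      obtain ⟨y, hy, hy'⟩ := hF3 x' (by
        rw [Finset.mem_preimage]
        change k x' = x at hx'
        rw [hx']
        exact hx)
      refine ⟨k y, ⟨y, hy, rfl⟩, ?_⟩
      rw [← hx']
      change ‖k x' - k y‖ < ε
      rw [← map_sub, hnorm]
      exact hy'
  · exact isSeparable_range hiso.continuous

end Pool.Agent.Helper39.AE.ENV
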